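import Pool.Agent.Lib.MP_e4938c_al.Chain

/-!
# Relation counts for groups with a chain of normal subgroups (MP_e4938c, Q1)

`Gen x`: the family `x` generates the group.  `relCount x`: the least number of defining
relators on the generating family `x` (the number `r_M`).  `genRank G`: the number `d(G)`.
`relRank G`: the number `r(G)`.  `SpreadTwo Q`: for any two nontrivial elements `a, b` there is
`c` such that both `{a, c}` and `{b, c}` generate `Q`.  `SwapConn k d Q`: any two generating
`d`-tuples of `Q` are connected by a chain of generating `d`-tuples in which consecutive ones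
differ in at most `k` entries.
-/

namespace Pool.Agent.Results.MP_e4938c_al.ChainsOfNormalSubgroups

open Subgroup Pool.MP_e4938c_al

universe u

theorem result {G : Type u} [Group G] (hfg : Group.FG G) {k : ℕ} (hk : 1 ≤ k)
    (N₀ N₁ N₂ N₃ : Subgroup G) [N₀.Normal] [N₁.Normal] [N₂.Normal] [N₃.Normal]
    (h01 : N₁ ≤ N₀) (h12 : N₂ ≤ N₁) (h23 : N₃ ≤ N₂)
    -- the top quotient is generated by `k` elements, or nilpotent, or of spread at least two,
    -- or any two generating `d(G)`-tuples are connected by changes of at most `k` entries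
    (h0 : (∃ g : Fin k → G ⧸ N₀, Gen g) ∨ Group.IsNilpotent (G ⧸ N₀) ∨ SpreadTwo (G ⧸ N₀) ∨
      SwapConn k (genRank G) (G ⧸ N₀))
    -- `N₀ / N₁` is trivial, or `k ≥ 2` and it is finite and soluble
    (h1 : N₀ = N₁ ∨ 2 ≤ k ∧ Finite (N₀.map (QuotientGroup.mk' N₁)) ∧
      Group.IsSolvable (N₀.map (QuotientGroup.mk' N₁)))
    -- `N₁ / N₂` is finite and lies in a subgroup of `G / N₂` generated by `k` elements
    (h2 : Finite (N₁.map (QuotientGroup.mk' N₂)) ∧
      ∃ c : Fin k → G ⧸ N₂, N₁.map (QuotientGroup.mk' N₂) ≤ closure (Set.range c))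
    -- `N₂ / N₃` is soluble with the maximal condition on subgroups, and finite if `k = 1`
    (h3 : Group.IsSolvable (N₂.map (QuotientGroup.mk' N₃)) ∧
      WellFoundedGT (Subgroup (N₂.map (QuotientGroup.mk' N₃))) ∧
      (Finite (N₂.map (QuotientGroup.mk' N₃)) ∨ 2 ≤ k))
    -- `N₃` can be left out of every generating set (it lies in the Frattini subgroup)
    (h4 : ∀ K : Subgroup G, K ⊔ N₃ = ⊤ → K = ⊤)
    (m : Fin (genRank G) → G) (hm : Gen m) :
    relCount m ≤ relRank G + k ∧
      (k < genRank G ∨ genRank G = 1 → relCount m + 1 ≤ genRank G + relRank G) := by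
  have hst : Stable k (genRank G) G := stable_of_chain hk N₀ N₁ N₂ N₃ h01 h12 h23 h0 h1 h2 h3 h4
  have hmain : relCount m ≤ relRank G + k := by
    apply r_add_le hfg
    intro x hx
    have h := relCount_le_of_NEq (hst x m hx hm)
    simpa using h
  refine ⟨hmain, ?_⟩
  rintro (hd | hd)
  · have h5 : ((k : ℕ∞) + 1) ≤ (genRank G : ℕ∞) := by exact_mod_cast hd
    calc relCount m + 1 ≤ relRank G + k + 1 := by gcongr
      _ = relRank G + (k + 1) := by rw [add_assoc]
      _ ≤ relRank G + genRank G := by gcongr
      _ = genRank G + relRank G := add_comm _ _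
  · have h6 : relCount m ≤ relRank G := by
      have h7 : relCount m ≤ relRank G + 0 := by
        apply r_add_le hfg
        intro x hx
        rw [add_zero]
        clear hmain hst
        revert m x
        rw [hd]
        intro m hm x hx
        exact relCount_cyclic hx hm
      simpa using h7
    have h8 : (1 : ℕ∞) ≤ (genRank G : ℕ∞) := by exact_mod_cast hd.ge
    calc relCount m + 1 ≤ relRank G + 1 := by gcongr
      _ ≤ relRank G + genRank G := by gcongr
      _ = genRank G + relRank G := add_comm _ _

end Pool.Agent.Results.MP_e4938c_al.ChainsOfNormalSubgroups
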