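import Pool.Agent.Lib.MP_e4938c_al.FreeProd3
import Pool.Agent.Lib.MP_e4938c_al.NilpAb3

/-!
# Relation counts for groups with a quotient that is a free product (MP_e4938c, Q1)

`Gen x`: the family `x` generates the group.  `relCount x`: the least number of defining
relators on the generating family `x` (the number `r_M`).  `genRank G`: the number `d(G)`.
`relRank G`: the number `r(G)`.  `FreeProductClass j`: the smallest class of groups which
contains the groups with `j` generators, the nilpotent and the finite soluble groups (if
`j ≥ 1`) and the soluble groups with the maximal condition on subgroups (if `j ≥ 2`), and is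
closed under free products of finitely generated groups and isomorphic copies.
-/

namespace Pool.Agent.Results.MP_e4938c_al.FreeProducts

open Subgroup Pool.MP_e4938c_al

universe u

theorem result {G : Type u} [Group G] (hfg : Group.FG G)
    -- a surjection onto the free product of two nontrivial finitely generated groups
    {P Q : Type u} [Group P] [Group Q] [Nontrivial P] [Nontrivial Q]
    (hP : Group.FG P) (hQ : Group.FG Q) (f : G →* Monoid.Coprod P Q)
    (hf : Function.Surjective f) (hclass : FreeProductClass (genRank P) Q)
    -- the image of the subgroup `D` generated by `c` contains `P`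
    {k : ℕ} (c : Fin k → G) (D : Subgroup G) (hD : D = closure (Set.range c))
    (hc : ∀ a : P, ∃ g ∈ D, f g = Monoid.Coprod.inl a)
    -- `B ≤ ker f` is soluble with the maximal condition on subgroups, and finite if `k = 1`
    (B : Subgroup G) [B.Normal] (hBf : B ≤ f.ker)
    (hB : Group.IsSolvable B ∧ WellFoundedGT (Subgroup B) ∧ (Finite B ∨ 2 ≤ k))
    -- `ker f` lies in every maximal subgroup that contains `D` and `B`
    (hker : ∀ K : Subgroup G, D ≤ K → B ≤ K → K ⊔ f.ker = ⊤ → K = ⊤)
    (hk : k < genRank G ∨ k < genRank P + genRank Q)
    (m : Fin (genRank G) → G) (hm : Gen m) :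
    relCount m ≤ relRank G + k ∧ relCount m + 1 ≤ genRank G + relRank G := by
  subst hD
  have hkd : k < genRank G := by
    rcases hk with hk | hk
    · exact hk
    · exact hk.trans_le (genRank_coprod hfg f hf)
  have hst : Stable k (genRank G) G := Stable.of_coprod_quotient' hP hQ hclass.stable f hf c B
    hBf hB (fun K hK => hker K (le_sup_left.trans hK) (le_sup_right.trans hK)) hc
  have hmain : relCount m ≤ relRank G + k := by
    apply r_add_le hfg
    intro x hx
    have h := relCount_le_of_NEq (hst x m hx hm)
    simpa using h
  refine ⟨hmain, ?_⟩
  have h5 : ((k : ℕ∞) + 1) ≤ (genRank G : ℕ∞) := by exact_mod_cast hkd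
  calc relCount m + 1 ≤ relRank G + k + 1 := by gcongr
    _ = relRank G + (k + 1) := by rw [add_assoc]
    _ ≤ relRank G + genRank G := by gcongr
    _ = genRank G + relRank G := add_comm _ _

end Pool.Agent.Results.MP_e4938c_al.FreeProducts
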