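import Pool.Agent.Lib.MP_e4938c_al.NilpAb3

/-!
# Relation counts for nilpotent by abelian groups (MP_e4938c, Q1)

`Gen x`: the family `x` generates the group.  `relCount x`: the least number of defining
relators on the generating family `x` (the number `r_M`).  `genRank G`: the number `d(G)`.
`relRank G`: the number `r(G)`.
-/

namespace Pool.Agent.Results.MP_e4938c_al.NilpotentByAbelian

open Subgroup Pool.MP_e4938c_al

universe u

theorem result {G : Type u} [Group G] [Nontrivial G] (hfg : Group.FG G)
    (A : Subgroup G) [A.Normal] (hnil : Group.IsNilpotent A)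
    (hQ : Nonempty (G ⧸ A ≃* Multiplicative ℤ) ∨
      Nonempty (G ⧸ A ≃* Multiplicative (ℤ × ℤ)) ∨
      (A = commutator G ∧ 3 ≤ genRank G ∧ ∃ s t : G ⧸ A, closure {s, t} = ⊤) ∨
      (A = commutator G ∧ ∃ a b : ℕ, a ∣ b ∧ (∀ u : (ZMod a)ˣ, u = 1 ∨ u = -1) ∧
        Nonempty (G ⧸ A ≃* Multiplicative (ZMod a × ZMod b))))
    (m : Fin (genRank G) → G) (hm : Gen m) :
    relCount m + 1 ≤ genRank G + relRank G := by
  have h0 := genRank_ne_zero hfg
  obtain ⟨N, hN⟩ : ∃ N, genRank G = N := ⟨_, rfl⟩
  rcases N with _ | _ | N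
  · exact absurd hN h0
  · exact bound_of_forall hfg hN (e := 0) le_rfl (fun x m hx hm => by
      simpa using relCount_cyclic hx hm) m hm
  -- at least two generators
  have key2 : ∀ s t : G ⧸ A, closure {s, t} = ⊤ → (∀ a b : G ⧸ A, a * b = b * a) →
      (A = commutator G ∨ ∀ p q : ℤ, s ^ p * t ^ q = 1 → p = 0 ∧ q = 0) → ∀ n, N = n + 1 →
      relCount m + 1 ≤ genRank G + relRank G := by
    intro s t hst hQc hA n hn
    subst hn
    refine bound_of_forall hfg hN (e := n + 2) le_rfl (fun x m hx hm => ?_) m hm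
    refine (relCount_le_of_NEq (neq_by_two hnil hQc s t hst hA hx hm)).trans ?_
    gcongr
    exact card_ne_two n
  have keypair : A = commutator G → ∀ a b : ℕ, a ∣ b →
      (∀ u : (ZMod a)ˣ, u = 1 ∨ u = -1) →
      Nonempty (G ⧸ A ≃* Multiplicative (ZMod a × ZMod b)) → N = 0 →
      relCount m + 1 ≤ genRank G + relRank G := by
    rintro rfl a b hab hu ⟨φ⟩ rfl
    refine bound_of_forall hfg hN (e := 1) le_rfl (fun x m hx hm => ?_) m hm
    refine (relCount_le_of_NEq (neq_pair hnil a b hab hu φ hx hm)).trans ?_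
    simp
  have hcommA : A = commutator G → ∀ a b : G ⧸ A, a * b = b * a := by
    rintro rfl a b
    exact mul_comm (G := Abelianization G) a b
  rcases hQ with ⟨⟨φ⟩⟩ | ⟨⟨φ⟩⟩ | ⟨hA, h3, s, t, hst⟩ | ⟨hA, a, b, hab, hu, ⟨φ⟩⟩
  · -- infinite cyclic quotient
    refine bound_of_forall hfg hN (e := N + 1) le_rfl (fun x m hx hm => ?_) m hm
    refine (relCount_le_of_NEq (neq_by_int hnil φ hx hm)).trans ?_
    rw [card_ne_one]
  · -- free abelian quotient of rank two
    have hQc : ∀ a b : G ⧸ A, a * b = b * a := by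
      intro a b
      apply φ.injective
      rw [map_mul, map_mul, mul_comm]
    rcases N with _ | n
    · obtain ⟨x, hx⟩ := exists_basis G
      have hA : A = commutator G := by
        revert x
        rw [hN]
        intro x hx
        exact eq_commutator φ hx
      exact keypair hA 0 0 dvd_rfl (fun u => Int.units_eq_one_or u) ⟨φ⟩ rfl
    · let y : Fin 2 → Multiplicative (ℤ × ℤ) :=
        ![Multiplicative.ofAdd (1, 0), Multiplicative.ofAdd (0, 1)]
      have hy : Gen y := by
        unfold Gen
        rw [eq_top_iff]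
        intro g _
        have h1 : g = y 0 ^ (Multiplicative.toAdd g).1 * y 1 ^ (Multiplicative.toAdd g).2 := by
          simp only [y, Matrix.cons_val_zero, Matrix.cons_val_one]
          rw [← ofAdd_zsmul, ← ofAdd_zsmul, ← ofAdd_add]
          apply Multiplicative.toAdd.injective
          simp
        rw [h1]
        have g0 : y 0 ∈ Subgroup.closure (Set.range y) := Subgroup.subset_closure ⟨0, rfl⟩
        have g1 : y 1 ∈ Subgroup.closure (Set.range y) := Subgroup.subset_closure ⟨1, rfl⟩
        exact mul_mem (zpow_mem g0 _) (zpow_mem g1 _)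
      refine key2 (φ.symm (y 0)) (φ.symm (y 1)) ?_ hQc (Or.inr ?_) n rfl
      · have h1 : Gen (φ.symm.toMonoidHom ∘ y) := hy.map _ φ.symm.surjective
        rw [eq_top_iff, ← h1, closure_le]
        rintro _ ⟨i, rfl⟩
        fin_cases i
        · exact Subgroup.subset_closure (Or.inl rfl)
        · exact Subgroup.subset_closure (Or.inr rfl)
      · intro p q hpq
        apply indep_of_gen hy
        rw [← map_zpow, ← map_zpow, ← map_mul] at hpq
        exact (map_eq_one_iff φ.symm φ.symm.injective).mp hpq
  · rcases N with _ | n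
    · omega
    · exact key2 s t hst (hcommA hA) (Or.inl hA) n rfl
  · rcases N with _ | n
    · exact keypair hA a b hab hu ⟨φ⟩ rfl
    · let y : Fin 2 → Multiplicative (ZMod a × ZMod b) :=
        ![Multiplicative.ofAdd (1, 0), Multiplicative.ofAdd (0, 1)]
      have hy : Gen y := by
        unfold Gen
        rw [eq_top_iff]
        intro g _
        obtain ⟨k, hk⟩ := ZMod.intCast_surjective (Multiplicative.toAdd g).1
        obtain ⟨l, hl⟩ := ZMod.intCast_surjective (Multiplicative.toAdd g).2
        have h1 : g = y 0 ^ k * y 1 ^ l := by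
          simp only [y, Matrix.cons_val_zero, Matrix.cons_val_one]
          rw [← ofAdd_zsmul, ← ofAdd_zsmul, ← ofAdd_add]
          apply Multiplicative.toAdd.injective
          simp [hk, hl]
        rw [h1]
        have g0 : y 0 ∈ Subgroup.closure (Set.range y) := Subgroup.subset_closure ⟨0, rfl⟩
        have g1 : y 1 ∈ Subgroup.closure (Set.range y) := Subgroup.subset_closure ⟨1, rfl⟩
        exact mul_mem (zpow_mem g0 _) (zpow_mem g1 _)
      refine key2 (φ.symm (y 0)) (φ.symm (y 1)) ?_ (hcommA hA) (Or.inl hA) n rfl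
      have h1 : Gen (φ.symm.toMonoidHom ∘ y) := hy.map _ φ.symm.surjective
      rw [eq_top_iff, ← h1, closure_le]
      rintro _ ⟨i, rfl⟩
      fin_cases i
      · exact Subgroup.subset_closure (Or.inl rfl)
      · exact Subgroup.subset_closure (Or.inr rfl)

end Pool.Agent.Results.MP_e4938c_al.NilpotentByAbelian
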