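import Pool.Agent.Lib.MP_e4938c_al.Rel3

/-!
# Relation counts for groups with a large subgroup that has few generators (MP_e4938c, Q1)

`Gen x`: the family `x` generates the group.  `relCount x`: the least number of defining
relators on the generating family `x` (the number `r_M`).  `genRank G`: the number `d(G)`.
`relRank G`: the number `r(G)`.  `RedundantClass`: the smallest class of groups which contains
the nilpotent and the finite soluble groups and is closed under free products of finitely
generated groups and isomorphic copies.
-/

namespace Pool.Agent.Results.MP_e4938c_al.SubgroupsWithFewGenerators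

open Subgroup Pool.MP_e4938c_al

universe u

theorem result {G : Type u} [Group G] (hfg : Group.FG G) {k e : ℕ} (hk : 1 ≤ k)
    (hkd : k < genRank G) (hed : e < genRank G)
    -- `D` is the subgroup generated by `c`
    (c : Fin k → G) (D : Subgroup G) (hD : D = closure (Set.range c))
    (B A N : Subgroup G) [B.Normal] [A.Normal] [N.Normal] (hAN : A ≤ N)
    -- `B` is soluble with the maximal condition on subgroups, and finite if `k = 1`
    (hB : Group.IsSolvable B ∧ WellFoundedGT (Subgroup B) ∧ (Finite B ∨ 2 ≤ k))
    -- `A` lies in every maximal subgroup that contains `D` and `B`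
    (hA : ∀ K : Subgroup G, D ≤ K → B ≤ K → K ⊔ A = ⊤ → K = ⊤)
    -- `N / A` is soluble with the maximal condition on subgroups, and finite if `e = d(G) - 1`
    (hNA : Group.IsSolvable (N.map (QuotientGroup.mk' A)) ∧
      WellFoundedGT (Subgroup (N.map (QuotientGroup.mk' A))) ∧
      (Finite (N.map (QuotientGroup.mk' A)) ∨ e + 2 ≤ genRank G))
    -- `G` is generated by `D`, `B` and the `e` elements `x`
    (x : Fin e → G) (hx : closure (Set.range x) ⊔ (D ⊔ B) = ⊤)
    -- `G / N` is nilpotent, or at most one maximal subgroup contains `D`, `B` and `N`, or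
    -- `B ≤ N` and `G / N` is a free product of nilpotent and finite soluble groups and
    -- generated by the images of the `e` elements `x`
    (hN : Group.IsNilpotent (G ⧸ N) ∨ (∀ K₁ K₂ : Subgroup G, D ⊔ B ⊔ N ≤ K₁ →
      D ⊔ B ⊔ N ≤ K₂ → K₁ ⊔ K₂ = ⊤ → K₁ = ⊤ ∨ K₂ = ⊤) ∨
      (B ≤ N ∧ closure (Set.range x) ⊔ N = ⊤ ∧ RedundantClass (G ⧸ N)))
    (m : Fin (genRank G) → G) (hm : Gen m) :
    relCount m ≤ relRank G + k ∧ relCount m + 1 ≤ genRank G + relRank G := by
  subst hD
  have hst : Stable k (genRank G) G := Stable.of_relative hk c x B A N hAN hB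
    (fun K hK => hA K (le_sup_left.trans hK) (le_sup_right.trans hK)) hNA hN hx hed
  have hmain : relCount m ≤ relRank G + k := by
    apply r_add_le hfg
    intro x hx
    have h := relCount_le_of_NEq (hst x m hx hm)
    simpa using h
  refine ⟨hmain, ?_⟩
  have h5 : ((k : ℕ∞) + 1) ≤ (genRank G : ℕ∞) := by exact_mod_cast hkd
  calc relCount m + 1 ≤ relRank G + k + 1 := by gcongr
    _ = relRank G + (k + 1) := by rw [add_assoc]
    _ ≤ relRank G + genRank G := by gcongr
    _ = genRank G + relRank G := add_comm _ _

end Pool.Agent.Results.MP_e4938c_al.SubgroupsWithFewGenerators
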